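import Mathlib

namespace Pool.Agent.Results.MP_dcd76c_al.Clique

/-- the commuting graph on the non-central elements -/
def cg (G : Type) [Group G] : SimpleGraph {x : G // x ∉ Subgroup.center G} where
  Adj x y := x ≠ y ∧ x.1 * y.1 = y.1 * x.1
  symm := ⟨fun _ _ h => ⟨h.1.symm, h.2.symm⟩⟩
  loopless := ⟨fun _ h => h.1 rfl⟩

open Matrix Matrix.ProjGenLinGroup

variable {F : Type} [Field F]

abbrev M (F : Type) := Matrix (Fin 2) (Fin 2) F

lemma mk_eq {g h : GL (Fin 2) F} : mk g = mk h ↔ ∃ c : F, (g : M F) = c • (h : M F) := by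
  rw [mk_eq_mk_iff]
  constructor
  · rintro ⟨u, rfl⟩
    refine ⟨(u⁻¹ : Fˣ), ?_⟩
    ext i j
    simp [GeneralLinearGroup.scalar, Matrix.mul_diagonal, mul_comm, mul_assoc]
  · rintro ⟨c, hc⟩
    have h0 : c ≠ 0 := by
      rintro rfl
      exact g.ne_zero (by simpa using hc)
    refine ⟨(Units.mk0 c h0)⁻¹, ?_⟩
    ext i j
    simp [GeneralLinearGroup.scalar, Matrix.mul_diagonal, hc]
    field_simp

lemma pm {g h : GL (Fin 2) F} (e : mk g * mk h = mk h * mk g) :
    (g : M F) * h = h * g ∨ (g : M F) * h = -(h * g) := by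
  rw [← map_mul, ← map_mul, mk_eq] at e
  obtain ⟨c, hc⟩ := e
  simp only [Units.val_mul] at hc
  have hd := congrArg Matrix.det hc
  simp only [det_mul, det_smul, Fintype.card_fin] at hd
  have h1 : (h : M F).det * (g : M F).det ≠ 0 := mul_ne_zero h.det_ne_zero g.det_ne_zero
  have : c * c = 1 := by
    apply mul_right_cancel₀ h1
    linear_combination -hd
  rcases mul_self_eq_one_iff.mp this with rfl | rfl
  · left; simpa using hc
  · right; simpa using hc

lemma comm {x t : M F} (hx : ∀ c : F, x ≠ c • 1) (h : t * x = x * t) :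
    ∃ a b : F, t = a • 1 + b • x := by
  have e := fun i j => congrFun (congrFun h i) j
  have e00 := e 0 0
  have e01 := e 0 1
  have e10 := e 1 0
  simp only [mul_apply, Fin.sum_univ_two] at e00 e01 e10
  have key : ∀ b : F, t 0 1 = b * x 0 1 → t 1 0 = b * x 1 0 →
      t 1 1 - t 0 0 = b * (x 1 1 - x 0 0) → ∃ a b : F, t = a • 1 + b • x := by
    intro b h1 h2 h3
    refine ⟨t 0 0 - b * x 0 0, b, ?_⟩
    ext i j
    fin_cases i <;> fin_cases j <;> simp [h1, h2]
    linear_combination h3
  by_cases h1 : x 0 1 = 0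
  · by_cases h2 : x 1 0 = 0
    · have h3 : x 1 1 - x 0 0 ≠ 0 := by
        intro h3
        apply hx (x 0 0)
        ext i j
        fin_cases i <;> fin_cases j <;> simp [h1, h2]
        linear_combination h3
      refine key ((t 1 1 - t 0 0) / (x 1 1 - x 0 0)) ?_ ?_ (by field_simp)
      · rw [h1, mul_zero]; apply mul_right_cancel₀ h3
        linear_combination e01 + (t 1 1 - t 0 0) * h1
      · rw [h2, mul_zero]; apply mul_right_cancel₀ h3
        linear_combination -e10 + (t 1 1 - t 0 0) * h2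
    · refine key (t 1 0 / x 1 0) ?_ (by field_simp) ?_
      · field_simp; linear_combination e00
      · field_simp; linear_combination e10
  · refine key (t 0 1 / x 0 1) (by field_simp) ?_ ?_
    · field_simp; linear_combination -e00
    · field_simp; linear_combination -e01

lemma sc (h2 : (2 : F) ≠ 0) {x y z : GL (Fin 2) F} (h : (x : M F) * y = -(y * x))
    (h1 : (z : M F) * x = x * z) (h3 : (z : M F) * y = y * z) : mk z = 1 := by
  have k : ∀ b : F, b • ((x : M F) * y) = b • ((y : M F) * x) → b = 0 := by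
    intro b hb
    have : (2 * b) • ((y : M F) * x) = 0 := by
      rw [h] at hb
      rw [mul_smul, two_smul]
      nth_rewrite 1 [← hb]
      simp
    exact (mul_eq_zero.mp ((smul_eq_zero.mp this).resolve_right (y * x).ne_zero)).resolve_left h2
  obtain ⟨a, b, e⟩ := comm (fun c hc => one_ne_zero (k 1 (by simp [hc]))) h1
  have : b = 0 := k b (by simpa [e, add_mul, mul_add] using h3)
  rw [← mk_one, mk_eq]
  exact ⟨a, by simp [e, this]⟩

lemma upper [Fintype F] (h2 : (2 : F) ≠ 0) (h3 : 3 ≤ Fintype.card F) (T : Finset (ProjGenLinGroup (Fin 2) F))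
    (h1 : ∀ t ∈ T, t ≠ 1) (hc : ∀ s ∈ T, ∀ t ∈ T, s * t = t * s) : T.card ≤ Fintype.card F := by
  classical
  rcases T.eq_empty_or_nonempty with rfl | ⟨x, hx⟩
  · simp
  obtain ⟨x, rfl⟩ := mk_surjective x
  by_cases H : ∀ t : GL (Fin 2) F, mk t ∈ T → (t : M F) * x = x * t
  · let f : F → (ProjGenLinGroup (Fin 2) F) := fun a => if h : IsUnit (a • (1 : M F) + x) then mk h.unit else 1
    refine (Finset.card_le_card (t := Finset.univ.image f) ?_).trans Finset.card_image_le
    intro t ht
    obtain ⟨t, rfl⟩ := mk_surjective t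
    obtain ⟨a, b, e⟩ := comm (fun c hc => h1 _ hx (by
      rw [← mk_one, mk_eq]; exact ⟨c, by simpa using hc⟩)) (H t ht)
    have hb : b ≠ 0 := by
      rintro rfl
      exact h1 _ ht (by rw [← mk_one, mk_eq]; exact ⟨a, by simpa using e⟩)
    have e2 : (a / b) • (1 : M F) + x = b⁻¹ • (t : M F) := by
      rw [e, smul_add, smul_smul, smul_smul, inv_mul_cancel₀ hb, one_smul, div_eq_inv_mul]
    have hu : IsUnit ((a / b) • (1 : M F) + x) := by
      rw [e2, isUnit_iff_isUnit_det, det_smul]
      exact (mul_ne_zero (pow_ne_zero _ (inv_ne_zero hb)) t.det_ne_zero).isUnit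
    refine Finset.mem_image.mpr ⟨a / b, Finset.mem_univ _, ?_⟩
    simp only [f, dif_pos hu]
    exact mk_eq.mpr ⟨b⁻¹, e2⟩
  · push Not at H
    obtain ⟨y, hy, hn⟩ := H
    have a : (x : M F) * y = -(y * x) := (pm (hc _ hx _ hy)).resolve_left (Ne.symm hn)
    have a' : (y : M F) * x = -(x * y) := by simp [a]
    refine (Finset.card_le_card (t := {(mk x)⁻¹, (mk y)⁻¹, (mk x * mk y)⁻¹}) ?_).trans
      (Finset.card_le_three.trans h3)
    intro z hz
    obtain ⟨z, rfl⟩ := mk_surjective z
    simp only [Finset.mem_insert, Finset.mem_singleton, eq_inv_iff_mul_eq_one, ← map_mul]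
    rcases pm (hc _ hz _ hx) with b | b <;> rcases pm (hc _ hz _ hy) with c | c
    · exact absurd (sc h2 a b c) (h1 _ hz)
    · refine Or.inl (sc h2 a ?_ ?_) <;> simp only [Units.val_mul]
      · rw [← mul_assoc, ← b]
      · rw [mul_assoc, a, mul_neg, ← mul_assoc, c, neg_mul, neg_neg, mul_assoc]
    · refine Or.inr (Or.inl (sc h2 a ?_ ?_)) <;> simp only [Units.val_mul]
      · rw [mul_assoc, a', mul_neg, ← mul_assoc, b, neg_mul, neg_neg, mul_assoc]
      · rw [← mul_assoc, ← c]
    · refine Or.inr (Or.inr (sc h2 a ?_ ?_)) <;> simp only [Units.val_mul]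
      · rw [← mul_assoc (x : M F), ← neg_neg ((x : M F) * z), ← b]
        simp only [mul_assoc, a', mul_neg, neg_mul]
      · rw [← mul_assoc (y : M F), ← neg_neg ((y : M F) * z), ← c, neg_mul, mul_assoc (z : M F) y,
          ← mul_assoc (y : M F) x, a']
        simp only [mul_assoc, mul_neg, neg_mul, neg_neg]

theorem result (n : ℕ) (hn : 0 < n) : ∃ (G : Type) (_ : Group G), Finite G ∧
    (∃ x y : G, x * y ≠ y * x) ∧ (cg G).cliqueNum = 2 * n + 1 := by
  classical
  obtain ⟨q, hq, z, hz⟩ := Nat.exists_prime_and_dvd (n := 2 * n + 1) (by omega)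
  haveI := Fact.mk hq
  haveI : NeZero z := ⟨by rintro rfl; omega⟩
  have q2 : q ≠ 2 := by rintro rfl; omega
  have q3 : 3 ≤ q := by have := hq.two_le; omega
  have rc : ringChar (ZMod q) ≠ 2 := by rwa [ZMod.ringChar_zmod_n]
  have h2 : (2 : ZMod q) ≠ 0 := Ring.two_ne_zero rc
  obtain ⟨d, hd⟩ := FiniteField.exists_nonsquare rc
  let g : ZMod q → GL (Fin 2) (ZMod q) := fun a => GeneralLinearGroup.mkOfDetNeZero !![a, d; 1, a]
    (by rw [det_fin_two_of]; intro h; exact hd ⟨a, by linear_combination -h⟩)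
  have gv : ∀ a, (g a : M (ZMod q)) = !![a, d; 1, a] := fun _ => rfl
  let u : GL (Fin 2) (ZMod q) := GeneralLinearGroup.mkOfDetNeZero !![1, 1; 0, 1] (by simp)
  have uv : (u : M (ZMod q)) = !![1, 1; 0, 1] := rfl
  have nc : ∀ a, mk (g a) * mk u ≠ mk u * mk (g a) := by
    intro a h
    rcases pm h with h | h
    · simpa [gv, uv] using congrFun (congrFun h 0) 0
    · have := congrFun (congrFun h 1) 0
      simp [gv, uv] at this
      exact h2 (by linear_combination this)
  haveI : Finite (ProjGenLinGroup (Fin 2) (ZMod q)) := Finite.of_surjective _ mk_surjective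
  let G := (ProjGenLinGroup (Fin 2) (ZMod q)) × Multiplicative (ZMod z)
  refine ⟨G, inferInstance, inferInstance, ⟨(mk (g 0), 1), (mk u, 1), fun h =>
    nc 0 (congrArg Prod.fst h)⟩, le_antisymm ?_ ?_⟩
  · obtain ⟨S, hS⟩ := (cg G).exists_isNClique_cliqueNum
    rw [← hS.card_eq, hz]
    have := upper h2 (by simpa using q3) (S.image fun s => s.1.1) (by
      simp only [Finset.mem_image]
      rintro _ ⟨s, -, rfl⟩ h
      exact s.2 (Subgroup.mem_center_iff.mpr fun w =>
        Prod.ext (show w.1 * s.1.1 = s.1.1 * w.1 by simp [h]) (mul_comm _ _))) (by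
      simp only [Finset.mem_image]
      rintro _ ⟨s, hs, rfl⟩ _ ⟨t, ht, rfl⟩
      by_cases e : s = t
      · rw [e]
      · exact congrArg Prod.fst (hS.isClique hs ht e).2)
    calc S.card ≤ ((S.image fun s => s.1.1) ×ˢ (Finset.univ : Finset (Multiplicative (ZMod z)))).card :=
          Finset.card_le_card_of_injOn (fun s => s.1) (fun s hs => Finset.mem_coe.mpr
            (Finset.mem_product.mpr ⟨Finset.mem_image_of_mem _ hs, Finset.mem_univ _⟩)) Subtype.val_injective.injOn
      _ ≤ q * z := by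
        rw [Finset.card_product]
        exact Nat.mul_le_mul (by simpa using this) (by simp)
  · let f : ZMod q × Multiplicative (ZMod z) → {x : G // x ∉ Subgroup.center G} := fun p =>
      ⟨(mk (g p.1), p.2), fun h => nc p.1
        (congrArg Prod.fst (Subgroup.mem_center_iff.mp h (mk u, 1))).symm⟩
    have hf : Function.Injective f := by
      rintro ⟨a, b⟩ ⟨a', b'⟩ h
      simp only [f, Subtype.mk.injEq, G, Prod.mk.injEq, mk_eq] at h
      obtain ⟨⟨c, hc⟩, rfl⟩ := h
      have h1 := congrFun (congrFun hc 1) 0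
      have h2 := congrFun (congrFun hc 0) 0
      simp [gv] at h1 h2
      simp [h2, ← h1]
    have : (cg G).IsClique (Finset.univ.image f : Finset _) := by
      intro s hs t ht e
      simp only [Finset.coe_image, Set.mem_image] at hs ht
      obtain ⟨p, -, rfl⟩ := hs
      obtain ⟨r, -, rfl⟩ := ht
      refine ⟨e, Prod.ext ?_ (mul_comm _ _)⟩
      show mk _ * mk _ = mk _ * mk _
      rw [← map_mul, ← map_mul]
      congr 1
      ext i j
      fin_cases i <;> fin_cases j <;> simp [gv] <;> ring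
    have h := SimpleGraph.IsClique.card_le_cliqueNum (tc := this)
    rw [Finset.card_image_of_injective _ hf] at h
    simpa [hz] using h

end Pool.Agent.Results.MP_dcd76c_al.Clique
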